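import Pool.Agent.Q260.DJ.Stm

set_option autoImplicit false

/-!
# Project SL (helper260): the theorem of Speiser, Levinson and Montgomery for all derivatives of zeta

`Zk k z = (-1)^k ζ^(k)(1/2 - z)`, `Im z > 0`.  Claim: for every `k` the zeros of `ζ^(k)` to the left of the critical
line have the same distance to it as the zeros of `ζ` to the right: a zero of `ζ` with `Re > 1/2 + σ + ε` at height `T` forces a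
zero of `ζ^(k)` with `Re < 1/2 - σ` within bounded distance, and conversely.  Known: `RH ⇒ ζ^(k)` has finitely many
nonreal zeros with `Re < 1/2` (Levinson-Montgomery 1974); converse only for `k = 1` (Speiser).

Coordinates as in project DJ (`Pool/Agent/Q260/DJ/Stm.lean`, all lemmas proved in `Pool/Agent/Q260/DJ/All.lean`: `DJ.ha : S_HA`,
`DJ.lb : S_LB`, `DJ.c0 : Cl XX`, `DJ.od : S_OD`, `DJ.tc`, ..). `HM z = HH (-z)`, so that `XX z = Zk 0 z * HM z`.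
The new point is `S_KL`: if `Zk k` has no zeros then `Zk 0` is a polynomial of degree `< k` plus something small; a large
polynomial contradicts the maximum principle for the EVEN function `XX` in the strip.
Every job is one `Prop` `S_..`.
-/

namespace Pool.Agent.Q260.SL

open Complex Filter Topology Metric Set Polynomial
open Pool.Agent.H24R2.JP (HH XX Om)
open Pool.Agent.Q260.DJ (Cl NZ Ok EE)
open scoped ComplexConjugate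

/-- `(-1)^k ζ^(k)(1/2 - z)`. -/
noncomputable def Zk (k : ℕ) (z : ℂ) : ℂ := iteratedDeriv k (fun w : ℂ => riemannZeta (1 / 2 - w)) z

noncomputable def HM (z : ℂ) : ℂ := HH (-z)

noncomputable def rr (z : ℂ) : ℂ := logDeriv HH (-z)

/-- `Gk 0 = XX` in the upper half plane, and `Gk (k + 1) = (Gk k)' + rr * Gk k`. -/
noncomputable def Gk (k : ℕ) (z : ℂ) : ℂ := Zk k z * HM z

/-- JOB ZA. Proof. `ζ` is analytic off `1`, `1/2 - z` has nonzero imaginary part. `iteratedDeriv_succ`. `XX z = XX (-z)`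
(`JP.XX_neg`) `= HH (-z) ζ(1/2 - z)`: `XX` in terms of `completedRiemannZeta` (`JP.Zer.XX_eq` in `H24R2/JP/Zeros.lean`) and
`riemannZeta_def_of_ne_zero`. `conj`: `riemannZeta_conj`, `iteratedDeriv` of `conj ∘ f ∘ conj` (cf. `Q285.DJ.iter_conj`). -/
def S_ZA : Prop := (∀ (k : ℕ) (z : ℂ), 0 < z.im → AnalyticAt ℂ (Zk k) z ∧ HasDerivAt (Zk k) (Zk (k + 1) z) z ∧
    Zk k z = (-1) ^ k * iteratedDeriv k riemannZeta (1 / 2 - z)) ∧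
  (∀ z : ℂ, 0 < z.im → XX z = Gk 0 z) ∧
  ∀ (k : ℕ) (s : ℂ), s ≠ 1 → iteratedDeriv k riemannZeta (conj s) = conj (iteratedDeriv k riemannZeta s)

/-- JOB HM. Proof. `HH (conj z) = conj (HH z)` (`GR_conj`), so everything can be read off at `- conj z` in the upper half
plane. `H24R2.JP.StirAux` (`Pool/Agent/H24R2/JP/Stir.lean`): `HH_ne`, `HH_deriv`, `ld_eq`, `ld_diff`, and `bound1`:
`‖logDeriv HH z - Om t‖ ≤ K` for `‖z - I t‖ ≤ t/4`. Second part: bound for `rr`, and Cauchy's estimate (radius 1) for `rr - Om t`.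
Third part (`-3 ≤ x ≤ x' ≤ 3`): `log ‖HM‖` has derivative `- Re rr` in `x` and `Im rr` in `y`; integrate (or mean value / Gronwall)
first vertically by `v`, then horizontally; `|Om (T + v) - Om T| ≤ |v|`. Fourth part: `‖HH z‖ / ‖HM z‖ =
‖HH (x + I T)‖ / ‖HH (-x + I T)‖`, integrate `Re logDeriv HH = Om T + O(1)` from `-x` to `x`. -/
def S_HM : Prop := (∀ z : ℂ, 0 < z.im → HM z ≠ 0 ∧ HasDerivAt HM (-(rr z * HM z)) z ∧ AnalyticAt ℂ rr z ∧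
    AnalyticAt ℂ HM z) ∧
  ∃ C T0 : ℝ, 1 ≤ C ∧ 3 ≤ T0 ∧
  (∀ z : ℂ, |z.re| ≤ 45 → T0 ≤ z.im → ‖rr z - (Om z.im : ℂ)‖ ≤ C ∧ ‖deriv rr z‖ ≤ C) ∧
  (∀ x x' T v : ℝ, -3 ≤ x → x ≤ x' → x' ≤ 3 → T0 ≤ T → T0 ≤ T + v →
    ‖HM (x' + I * ((T + v : ℝ) : ℂ))‖ ≤ Real.exp (C * (1 + |v|) - Om T * (x' - x)) * ‖HM (x + I * T)‖ ∧
    ‖HM (x + I * ((T + v : ℝ) : ℂ))‖ ≤ Real.exp (C * (1 + |v|) + Om T * (x' - x)) * ‖HM (x' + I * T)‖) ∧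
  ∀ z : ℂ, 0 ≤ z.re → z.re ≤ 3 → T0 ≤ z.im → |Real.log (‖HH z‖ / ‖HM z‖) - Real.log z.im * z.re| ≤ C

/-- JOB CG (from `S_ZA`, `S_HM`, `DJ.ha`, `DJ.hb`, `DJ.c0`). Proof. Induction on `k`; `Gk 0 = XX` in the upper half plane (all
conditions of `Cl` are about `Im z > 0`, `logDeriv` and `AnalyticAt` are local). Closure: as in `DJ.S_CD`
(`Pool/Agent/Q144/DJ/CD.lean`) for `G1 = G' + rr G`: `an`, `grow` (Cauchy; `‖rr‖ ≤ log Im z + C`); `right`: `q = logDeriv G`,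
`q = Om + O(1)`, `q' = O(1)`, `G1 = G (q + rr)`, `q + rr = 2 Om + O(1)`, `logDeriv G1 = q + (q' + rr') / (q + rr)`; `mass`:
`(k, j)` becomes `(k + 1, j)`. Also keep track of `mass` with `j = 0` and `k = k`: second part. -/
def S_CG : Prop := ∀ k : ℕ, Cl (Gk k) ∧ ∃ C T0 : ℝ, 1 ≤ C ∧ 3 ≤ T0 ∧ ∀ t : ℝ, T0 ≤ t →
  Real.log t ^ k / C ≤ ‖Gk k (3 + I * t)‖ / ‖HH (3 + I * t)‖ ∧
  ‖Gk k (3 + I * t)‖ / ‖HH (3 + I * t)‖ ≤ C * Real.log t ^ k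

/-- JOB LZ (from `S_ZA`, `S_HM`, `S_CG`, `DJ.lb`, `DJ.ha`). Proof. `DJ.lb (Gk k)` with `NZ (Gk k)` (`HM ≠ 0`); `‖Zk k z‖ =
(‖Gk k z‖ / ‖HH z‖) (‖HH z‖ / ‖HM z‖)`, last parts of `S_HM` and `S_CG` (`k loglog T + C ≤ EE` for a larger constant, since
`EE C T δ ≥ C (log T)^(1/2)`); `logDeriv (Zk k) = logDeriv (Gk k) + rr`, and `logDeriv HH z = Om + O(1)`. -/
def S_LZ : Prop := ∀ k : ℕ, ∃ C T0 : ℝ, 1 ≤ C ∧ 3 ≤ T0 ∧ ∀ T θ δ : ℝ, T0 ≤ T → 0 ≤ θ → θ ≤ 1 → 0 < δ → δ ≤ 1 / 2 →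
  NZ (Zk k) θ T 4 → ∀ z : ℂ, z.im = T → θ + δ ≤ z.re → z.re ≤ 3 → Zk k z ≠ 0 ∧
    |Real.log ‖Zk k z‖ - Real.log T * z.re| ≤ EE C T δ ∧ ‖logDeriv (Zk k) z - (Real.log T : ℂ)‖ ≤ EE C T δ

/-- JOB LG. Proof. Lagrange interpolation (`Lagrange.interpolate`, `Lagrange.eq_interpolate`) at the nodes `a + j δ / n`,
`j = 0, .., n` (`n ≥ 1`; `n = 0`: constants): `|z - x_i| ≤ W + δ`, `|x_i - x_j| ≥ δ / n`. -/
def S_LG : Prop := ∀ n : ℕ, ∃ C : ℝ, 1 ≤ C ∧ ∀ (P : ℂ[X]) (a : ℂ) (δ W : ℝ), P.natDegree ≤ n → 0 < δ → δ ≤ 1 → 1 ≤ W →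
  ∃ x : ℝ, 0 ≤ x ∧ x ≤ δ ∧ ∀ z : ℂ, ‖z - a‖ ≤ W → ‖P.eval z‖ ≤ C * (W / δ) ^ n * ‖P.eval (a + x)‖

/-- JOB TY. Proof. `P = ∑_{j<k} h j z0 (X - z0)^j / j!`, `z0 = x0 + I T`. With `P_j = P^(j)`: `R_j = h j - P_j` vanishes at `z0`,
`R_j' = R_(j+1)`, `R_k = h k`. Induction downwards: `‖R_j z‖ ≤ (W + 1)^(k - j) E exp (L (Re z - x0))` in the box: first
vertically from `z0` to `x0 + I Im z` (mean value inequality: `≤ W (..)`), then horizontally (`∫ exp (L (t - x0)) dt ≤ exp (L (x - x0))`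
since `L ≥ 1`; use `image_norm_le_of_norm_deriv_right_le_deriv_boundary`). (It may be easier to do induction on `k` with `h (· + 1)`
and an antiderivative of `P`.) -/
def S_TY : Prop := ∀ (k : ℕ) (h : ℕ → ℂ → ℂ) (x0 x1 T W E L : ℝ), 1 ≤ L → 0 ≤ E → 0 ≤ W → x0 ≤ x1 →
  (∀ j : ℕ, j < k → ∀ z : ℂ, x0 ≤ z.re → z.re ≤ x1 → |z.im - T| ≤ W → HasDerivAt (h j) (h (j + 1) z) z) →
  (∀ z : ℂ, x0 ≤ z.re → z.re ≤ x1 → |z.im - T| ≤ W → ‖h k z‖ ≤ E * Real.exp (L * (z.re - x0))) →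
  ∃ P : ℂ[X], P.natDegree ≤ k ∧ ∀ z : ℂ, x0 ≤ z.re → z.re ≤ x1 → |z.im - T| ≤ W →
    ‖h 0 z - P.eval z‖ ≤ (W + 1) ^ k * E * Real.exp (L * (z.re - x0))

/-- JOB MP: maximum principle for `XX` in a strip. Proof. `A` from `DJ.c0.grow` (`a = -1/2`, `B = 2`). `h w = XX w * exp (κ (w - I T)^2)`,
`κ = 2 (A + 4 + C) L / W^2`, `L = log T`, on the rectangle `|Re w| ≤ b`, `|Im w - T| ≤ W` (`Complex.norm_le_of_forall_mem_frontier_norm_le`).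
`‖XX (-x + I y)‖ = ‖XX (x + I y)‖` (`JP.XX_neg`, `JP.XX_conj`). Horizontal sides: `‖XX w‖ ≤ exp (A log (T + W)) ‖HH (|x| + I y)‖`,
`‖HH‖ ≤ exp (C + log y x) ‖HM‖` and `‖HM (|x| + I y)‖ ≤ exp (C (1 + W) + Om T) ‖HM (x2 + I T)‖` (`S_HM`), and
`‖exp (κ ..)‖ ≤ exp (κ (1 - W^2))`; the product is `≤ ‖HM (x2 + I T)‖` (`C (1 + W) ≤ L` as `W ≤ L / C'`). At
`w = x2 + I T` the factor `exp (κ x2^2)` is `≥ 1`; on the vertical sides it is `≤ exp κ ≤ exp (C' L / W^2)`. -/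
def S_MP : Prop := ∃ C : ℝ, 1 ≤ C ∧ ∀ T W b x2 M : ℝ, C ≤ T → C ≤ W → C * W ≤ Real.log T → 0 ≤ x2 → x2 ≤ b → b ≤ 1 →
  (∀ y : ℝ, |y - T| ≤ W → ‖XX (b + I * y)‖ ≤ M) →
  ‖XX (x2 + I * T)‖ ≤ Real.exp (C * Real.log T / W ^ 2) * M + ‖HM (x2 + I * T)‖

/-- JOB KL (from `S_ZA`, `S_HM`, `S_LZ`, `S_LG`, `S_TY`, `S_MP`). Proof. `L = log T`, `b = θ + 3 δ`, `W = K / δ`, `C` large in terms of
`K` and everything. `S_LZ` at all heights in `[T - W, T + W]`: `‖Zk k w‖ ≤ exp (2 EE C1 T δ + 3) exp (L Re w)` for `θ + δ ≤ Re w ≤ 2`.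
`S_TY` (`h = Zk`, `x0 = θ + δ`, `x1 = 2`): `‖Zk 0 - P‖ ≤ (W+1)^k E1 exp (L Re w)`, `E1 = exp (2 EE + 3)`. `S_LG` (`a = x0 + I T`, `n = k`, with
`W + 3`): a point `w2 = x2 + I T`, `x2 ∈ [θ + δ, θ + 2 δ]`, `p = ‖P w2‖`, `‖P w‖ ≤ C2 ((W+3)/δ)^k p` for `‖w - a‖ ≤ W + 3`. On `Re w = b`:
`‖XX w‖ = ‖Zk 0 w‖ ‖HM w‖ ≤ (C2 ((W+3)/δ)^k p + (W+1)^k E1 exp (L b)) exp (C (1 + W) - L (b - x2) / 2) ‖HM w2‖`. `S_MP`: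
`p - (W+1)^k E1 exp (L x2) ≤ ‖Zk 0 w2‖ = ‖XX w2‖ / ‖HM w2‖ ≤ exp (C L / W^2 + C (1 + W) - L δ / 2) (..) + 1`; here
`C / W^2 ≤ δ / 16` for `K` large and `C (1 + W) ≤ L δ / 16`, `C2 ((W+3)/δ)^k exp (- L δ / 4) ≤ 1/2` by `Ok` (`L ≥ C'/δ^3`, `EE C1 T δ ≤ (C1/C') δ L`). So
`p ≤ 6 (W+1)^k E1 exp (L b)`, and for `|Im z - T| ≤ 4`: `‖Zk 0 z‖ ≤ ‖P z‖ + .. ≤ exp (δ L) exp (L max (Re z) b) ≤ exp (L (Re z + 3 δ))`. -/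
def S_KL : Prop := ∀ k : ℕ, ∃ C T0 : ℝ, 1 ≤ C ∧ 3 ≤ T0 ∧ ∀ T θ δ : ℝ, T0 ≤ T → 0 ≤ θ → θ + 4 * δ ≤ 1 → Ok C T δ →
  NZ (Zk k) θ T (C / δ) → ∀ z : ℂ, |z.im - T| ≤ 4 → θ + δ ≤ z.re → z.re ≤ 2 →
  ‖Zk 0 z‖ ≤ Real.exp (Real.log T * (z.re + 3 * δ))

/-- JOB BZ (from `S_ZA`, `S_LZ`, `DJ.od`): one step back. Proof. `a = θ + 2 δ`, `L = log T`, `u x = Zk j (x + I T) / Zk (j+1) (x + I T)` satisfies
`u' = 1 - q u`, `q = logDeriv (Zk (j+1))`, `‖q - L‖ ≤ EE C1 T δ ≤ L / 8` on `[a, 2]` (`S_LZ` for `j + 1`). At `a`: `‖Zk j‖ ≤ j! δ^(-j) max ‖Zk 0‖ ≤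
j! δ^(-j) exp (L (a + 4 δ))` (Cauchy, `Zk j = iteratedDeriv j (Zk 0)` near the point; or induction) and `‖Zk (j+1)‖ ≥ exp (L a - EE)`. So `‖u a‖ ≤ U =
j! δ^(-j) exp (4 δ L + EE)`, and `DJ.od` gives `‖u x - 1/L‖ ≤ exp (- L (x - a) / 2) (U + 1/L) + 1/(4 L) < 1/L` for `x ≥ a + 14 δ` (`Ok` with `C` large). -/
def S_BZ : Prop := ∀ j : ℕ, ∃ C T0 : ℝ, 1 ≤ C ∧ 3 ≤ T0 ∧ ∀ T θ δ : ℝ, T0 ≤ T → 0 ≤ θ → θ + 20 * δ ≤ 1 → Ok C T δ →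
  NZ (Zk (j + 1)) θ T 4 → (∀ z : ℂ, |z.im - T| ≤ 1 → θ + δ ≤ z.re → z.re ≤ 1 → ‖Zk 0 z‖ ≤ Real.exp (Real.log T * (z.re + 3 * δ))) →
  ∀ z : ℂ, z.im = T → θ + 16 * δ ≤ z.re → z.re ≤ 2 → Zk j z ≠ 0

/-- JOB UZ (from `S_KL`, `S_BZ`). Proof. `S_KL` at `T` and at heights `T'` with `|T' - T| ≤ X + 4 k + 4` gives
`‖Zk 0 z‖ ≤ exp (log T' (z.re + 3 δ))` for `Re z ≥ θ + δ` (so also for `θ` replaced by `θ' ≥ θ`, and `log T'` versus `log T`: use `T' = T''` the height in question). Then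
`S_BZ` for `j = k - 1, .., 0`, `θ_j = θ + 16 (k - 1 - j) δ`, at all heights `T'` with `|T' - T| ≤ X + 4 j`. -/
def S_UZ : Prop := ∀ (k : ℕ) (X : ℝ), ∃ C T0 : ℝ, 1 ≤ C ∧ 3 ≤ T0 ∧ ∀ T θ δ : ℝ, T0 ≤ T → 0 ≤ θ → θ + C * δ ≤ 1 → Ok C T δ →
  NZ (Zk k) θ T (C / δ) → NZ (Zk 0) (θ + C * δ) T X

/-- JOB DZ (from `S_ZA`, `S_LZ`). Proof. One step forwards: `NZ (Zk j) θ T' 4`, so `‖logDeriv (Zk j) z - log T'‖ ≤ EE < log T'` for `Im z = T'`, `Re z ≥ θ + δ`: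
`Zk (j+1) z = Zk j z * logDeriv (Zk j) z ≠ 0`. Induction. -/
def S_DZ : Prop := ∀ (k : ℕ) (X : ℝ), ∃ C T0 : ℝ, 1 ≤ C ∧ 3 ≤ T0 ∧ ∀ T θ δ : ℝ, T0 ≤ T → 0 ≤ θ → θ + C * δ ≤ 1 → Ok C T δ →
  NZ (Zk 0) θ T C → NZ (Zk k) (θ + C * δ) T X

/-- JOB FL: no zeros far to the left (uniformly). Proof. For `Re z ≥ 3/4`, `Im z ≥ 1`: `q 0 z = logDeriv (Zk 0) z = - ζ'/ζ(1/2 - z)
= log (2π)^(-1) + ψ(1/2 + z) - (π/2) tan (π (1/2 + z) / 2) + ζ'/ζ(1/2 + z)` (functional equation `riemannZeta_one_sub`), so `q 0 z = log z + O(1)` and `q 0` is analytic there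
(`ψ(s) = log s + O(1/|s|)` for `Re s ≥ 1/2`: `H370.DG.logDeriv_Gamma'`, cf. `H24R2/JP/Stir.lean`, `SG.GamAux.ld_bound`; it may be easier to use
`logDeriv (Zk 0) = logDeriv XX + rr` with `XX z = HH z ζ(1/2 + z)`, and `ld z`). By Cauchy `(q 0)' = O(1)`; induction: `Zk (k+1) = Zk k * q k`, `q (k+1) = q k + (q k)' / q k`,
on the regions `Re z ≥ 3/4 + (1 - 2^(-k)) / 8`, `Im z ≥ T_k`; `‖q k z - log z‖ ≤ C_k`, so `q k ≠ 0` for `Im z ≥ T_k`. -/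
def S_FL : Prop := ∀ k : ℕ, ∃ T0 : ℝ, 3 ≤ T0 ∧ ∀ z : ℂ, 1 ≤ z.re → T0 ≤ z.im → Zk k z ≠ 0

/-- JOB DIZ (from `S_ZA`, `S_UZ`, `S_DZ`, `S_FL`, `S_CG`): the dictionary. Proof. Contrapositive, as `DJ.S_DI` (`Pool/Agent/Q24/DJ/DI.lean`): `δ = ε / (2 C)`, `X = 0`;
zeros of `XX` in the upper half plane are those of `Zk 0` (`HM ≠ 0`), in `|Re z| ≤ 1/2`. Zeros of `Zk k` at large heights with `Re z ≥ 1/2 + ε/2` do not exist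
(`Cl.right` for `Re z ≤ 2`, `S_FL`). -/
def S_DIZ : Prop := ∀ (k : ℕ) (ε : ℝ), 0 < ε → ∃ C T0 : ℝ, 1 ≤ C ∧ 3 ≤ T0 ∧
  (∀ (z : ℂ) (σ : ℝ), XX z = 0 → T0 ≤ z.im → 0 ≤ σ → σ + ε ≤ z.re →
    ∃ w : ℂ, Zk k w = 0 ∧ σ < w.re ∧ w.re ≤ 2 ∧ |w.im - z.im| ≤ C) ∧
  (∀ (z : ℂ) (σ : ℝ), Zk k z = 0 → T0 ≤ z.im → 0 ≤ σ → σ + ε ≤ z.re →
    ∃ w : ℂ, XX w = 0 ∧ σ < w.re ∧ |w.im - z.im| ≤ C)

/-- JOB RAZ (from `S_UZ`): the rate. Proof. As `DJ.S_RA` (`θ = 0`, `X = 0`, `δ = 10 C logloglog T / loglog T`; `C / δ ≤ T / 2`). -/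
def S_RAZ : Prop := ∀ (k : ℕ) (T1 : ℝ), (∀ z : ℂ, 0 < z.re → T1 ≤ z.im → Zk k z ≠ 0) →
  ∃ C : ℝ, 0 < C ∧ ∀ z : ℂ, XX z = 0 → C ≤ z.im →
    |z.re| ≤ C * (Real.log (Real.log (Real.log z.im)) / Real.log (Real.log z.im))

/-- `F` has no zeros with `|Im s| ≥ T`, `Re s < θ - ε` (left), for each `ε > 0` and some `T`. -/
def LeftFree (F : ℂ → ℂ) (θ : ℝ) : Prop :=
  ∀ ε : ℝ, 0 < ε → ∃ T : ℝ, ∀ s : ℂ, T ≤ |s.im| → s.re < θ - ε → F s ≠ 0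

/-- The same on the right. -/
def RightFree (F : ℂ → ℂ) (θ : ℝ) : Prop :=
  ∀ ε : ℝ, 0 < ε → ∃ T : ℝ, ∀ s : ℂ, T ≤ |s.im| → θ + ε < s.re → F s ≠ 0

/-- JOB GZ (from `S_DIZ`, `S_ZA`): the global form. Proof. `s = 1/2 - z` or `conj`; zeros `s` of `ζ` with `Im s > 0` and the zeros `z = s - 1/2` of `XX`:
`XX z = HH z ζ(1/2 + z)`, `HH_ne`. `Zk k z = ± iteratedDeriv k ζ (1/2 - z)`, `Im (1/2 - z) < 0`; zeros with `Im s > 0` by `conj`. `S_DIZ` with `ε/3`, `σ = θ - 1/2 + ε/3` both ways. -/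
def S_GZ : Prop := ∀ (k : ℕ) (θ : ℝ), 1 / 2 ≤ θ →
  (LeftFree (iteratedDeriv k riemannZeta) (1 - θ) ↔ RightFree riemannZeta θ) ∧
  (RightFree riemannZeta θ ↔ Pool.Agent.Q260.DJ.AlmostFree riemannZeta θ)

end Pool.Agent.Q260.SL
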