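import Pool.Agent.Q260.SL.Stm

set_option autoImplicit false

/-!
# Project SL, second part: all values `a` of all derivatives

The same for the solutions of `ζ^(k)(s) = a`, any `a`, any `k ≥ 0`: if `Zk k + a` has no zeros in `Re z > θ` then (three circles)
its derivative `Zk (k+1)` has none in `Re z > θ + δ`; conversely `‖Zk k z‖ > ‖a‖` where `ζ` has no zeros.
-/

namespace Pool.Agent.Q260.SL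

open Complex Filter Topology Metric Set Polynomial
open Pool.Agent.H24R2.JP (HH XX Om)
open Pool.Agent.Q260.DJ (Cl NZ Ok EE)
open scoped ComplexConjugate

noncomputable def Za (k : ℕ) (a : ℂ) (z : ℂ) : ℂ := Zk k z + a

/-- JOB FLR (replaces `S_FL`): uniformly large far to the left. Proof. As `S_FL`; moreover `d/dx log ‖Zk 0 (x + I y)‖ = Re (q 0) > 0` for `x ≥ 1`, `y ≥ T0`, and
`‖Zk 0 (1 + I y)‖ → ∞` (`Zk 0 z = HH z ζ(1/2 + z) / HM z`, last part of `S_HM`: `≥ c y`), `‖Zk (k+1) z‖ = ‖Zk k z‖ ‖q k z‖ ≥ ‖Zk k z‖`. -/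
def S_FLR : Prop := ∀ (k : ℕ) (R : ℝ), ∃ T0 : ℝ, 3 ≤ T0 ∧ ∀ z : ℂ, 1 ≤ z.re → T0 ≤ z.im → R ≤ ‖Zk k z‖

/-- JOB CA (from `S_ZA`, `S_HM`, `S_CG`, `DJ.ha`, `DJ.hb`): `(Zk k + a) HM` is in the class. Proof. `G = Gk k`, `G1 = G + a HM = G (1 + a e)`, `e = HM / G`. `grow`: `‖HM‖ ≤ exp (C log) ‖HH‖` (`S_HM`, for
`-1 ≤ Re z ≤ 3` from the third part, for larger `Re z` `‖HM z‖ ≤ ‖HH z‖` (integrate `Re (rr) ≥ 0`, `Re logDeriv HH ≥ 0` from `Re = 0`)). `right` (`b > 1/2`): `‖e z‖ ≤ 1/(2 (1 + ‖a‖))` for large heights, because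
`‖G z‖ ≥ ‖HH z‖ / (C log^..)` (`mass` and `right`: integrate `‖logDeriv G - logDeriv HH‖ ≤ C` from `3 + I t` horizontally) and `‖HM z‖ ≤ C (Im z)^(-1/2) ‖HH z‖` (fourth part of `S_HM`); `e' = e (logDeriv HM - logDeriv G)` with
`‖logDeriv HM - logDeriv G‖ ≤ 2 log Im z`, so `‖a e'‖ ≤ 1` and `logDeriv G1 = logDeriv G + a e' / (1 + a e)`. `mass`: `1/2 ≤ ‖1 + a e‖ ≤ 2`. -/
def S_CA : Prop := ∀ (k : ℕ) (a : ℂ), Cl (fun z => Za k a z * HM z)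

/-- JOB AZ (from `S_ZA`, `S_HM`, `S_CA`, `DJ.lb`, `DJ.ha`). Proof. `F = Za k a`, `DJ.lb` for `F HM` (`NZ` as `HM ≠ 0`): `logDeriv F = logDeriv (F HM) + rr = log T + O(EE) + O(1)`, which is
not `0` by `Ok` with `C` large; `F' = Zk (k + 1)`, so `Zk (k + 1) z = F z * logDeriv F z ≠ 0`. -/
def S_AZ : Prop := ∀ (k : ℕ) (a : ℂ), ∃ C T0 : ℝ, 1 ≤ C ∧ 3 ≤ T0 ∧ ∀ T θ δ : ℝ, T0 ≤ T → 0 ≤ θ → θ ≤ 1 → Ok C T δ →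
  NZ (Za k a) θ T 4 → ∀ z : ℂ, z.im = T → θ + δ ≤ z.re → z.re ≤ 2 → Zk (k + 1) z ≠ 0

/-- JOB UA (from `S_AZ`, `S_UZ`). Proof. `S_AZ` at the heights `T'` with `|T' - T| ≤ C1 / δ` gives `NZ (Zk (k+1)) (θ + δ) T (C1 / δ)`; `S_UZ` for `k + 1`. -/
def S_UA : Prop := ∀ (k : ℕ) (a : ℂ) (X : ℝ), ∃ C T0 : ℝ, 1 ≤ C ∧ 3 ≤ T0 ∧ ∀ T θ δ : ℝ, T0 ≤ T → 0 ≤ θ → θ + C * δ ≤ 1 → Ok C T δ →
  NZ (Za k a) θ T (C / δ) → NZ (Zk 0) (θ + C * δ) T X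

/-- JOB DA (from `S_ZA`, `S_LZ`, `S_DZ`). Proof. `S_DZ` (with `X + 4`) and then `S_LZ`: `log ‖Zk k z‖ ≥ log T' (θ' + δ) - EE ≥ (δ / 2) log T' > log ‖a‖`. -/
def S_DA : Prop := ∀ (k : ℕ) (a : ℂ) (X : ℝ), ∃ C T0 : ℝ, 1 ≤ C ∧ 3 ≤ T0 ∧ ∀ T θ δ : ℝ, T0 ≤ T → 0 ≤ θ → θ + C * δ ≤ 1 → Ok C T δ →
  NZ (Zk 0) θ T C → NZ (Za k a) (θ + C * δ) T X

/-- JOB DIA (from `S_ZA`, `S_HM`, `S_CG`, `S_UA`, `S_DA`, `S_FLR`): the dictionary. Proof. Contrapositive, as `DJ.S_DI` (`Pool/Agent/Q24/DJ/DI.lean`): `δ = ε / (2 C)`, `X = 0`;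
zeros of `XX` in the upper half plane are those of `Zk 0` (`HM ≠ 0`), in `|Re z| ≤ 1/2`. Zeros of `Za k a` at large heights with `Re z ≥ 1/2 + ε/2`: use `S_DA` with `θ = 1/2` for `Re z ≤ 2`, `S_FLR` for `Re z ≥ 1`. -/
def S_DIA : Prop := ∀ (k : ℕ) (a : ℂ) (ε : ℝ), 0 < ε → ∃ C T0 : ℝ, 1 ≤ C ∧ 3 ≤ T0 ∧
  (∀ (z : ℂ) (σ : ℝ), XX z = 0 → T0 ≤ z.im → 0 ≤ σ → σ + ε ≤ z.re →
    ∃ w : ℂ, Za k a w = 0 ∧ σ < w.re ∧ w.re ≤ 2 ∧ |w.im - z.im| ≤ C) ∧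
  (∀ (z : ℂ) (σ : ℝ), Za k a z = 0 → T0 ≤ z.im → 0 ≤ σ → σ + ε ≤ z.re →
    ∃ w : ℂ, XX w = 0 ∧ σ < w.re ∧ |w.im - z.im| ≤ C)

/-- JOB RAA (from `S_ZA`, `S_HM`, `S_UA`): the rate. Proof. As `DJ.S_RA` (`θ = 0`, `X = 0`, `δ = 10 C logloglog T / loglog T`; `C / δ ≤ T / 2`). -/
def S_RAA : Prop := ∀ (k : ℕ) (a : ℂ) (T1 : ℝ), (∀ z : ℂ, 0 < z.re → T1 ≤ z.im → Za k a z ≠ 0) →
  ∃ C : ℝ, 0 < C ∧ ∀ z : ℂ, XX z = 0 → C ≤ z.im →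
    |z.re| ≤ C * (Real.log (Real.log (Real.log z.im)) / Real.log (Real.log z.im))

/-- JOB GA (from `S_DIA`, `S_ZA`): the global form (`a = 0` is `S_GZ`). Proof. `ζ^(k)(s) = a` with `Im s < 0`: `z = 1/2 - s`, `Zk k z = (-1)^k a`; with `Im s > 0`: `conj`, `ζ^(k)(conj s) = conj a`. Zeros `s` of `ζ` with
`Im s > 0`, `Re s > 1/2` and the zeros `z = s - 1/2` of `XX`: `XX z = HH z ζ(1/2 + z)`, `HH_ne`. `S_DIA` with `ε/3`, `σ = θ - 1/2 + ε/3` both ways, for `(-1)^(k+1) a` and `(-1)^(k+1) conj a`.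
The third part is the local form for `Im > 0`. -/
def S_GA : Prop := ∀ (k : ℕ) (a : ℂ),
  (∀ θ : ℝ, 1 / 2 ≤ θ → (LeftFree (fun s => iteratedDeriv k riemannZeta s - a) (1 - θ) ↔ RightFree riemannZeta θ) ∧
    (RightFree riemannZeta θ ↔ Pool.Agent.Q260.DJ.AlmostFree riemannZeta θ)) ∧
  ∀ ε : ℝ, 0 < ε → ∃ C : ℝ,
    (∀ (ρ : ℂ) (σ : ℝ), riemannZeta ρ = 0 → C ≤ ρ.im → 1 / 2 ≤ σ → σ + ε ≤ ρ.re →
      ∃ w : ℂ, iteratedDeriv k riemannZeta w = a ∧ w.re < 1 - σ ∧ |w.im - ρ.im| ≤ C) ∧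
    (∀ (w : ℂ) (σ : ℝ), iteratedDeriv k riemannZeta w = a → C ≤ w.im → 1 / 2 ≤ σ → w.re ≤ 1 - σ - ε →
      ∃ ρ : ℂ, riemannZeta ρ = 0 ∧ σ < ρ.re ∧ |ρ.im - w.im| ≤ C)

end Pool.Agent.Q260.SL
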